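import Mathlib
import Pool.Agent.Q65.LightFinal

/-!
# MP_2eaabb_an, Q1: the light-segment set of a minimiser can have positive `ℋ^{m-1}` measure

The definitions `pathDist`, `AdmBdry`, `YY`, `pairing`, `action`, `lightSet` are in
`Pool/Agent/Q65/LightFinal.lean`; they are stated for every dimension `m` and every set `Ω`.
-/

namespace Pool.Agent.Results.MP_2eaabb_an.LightCounterexample

open Q65.Light MeasureTheory Set
open scoped Gradient ENNReal

/-- The assertion of Q1: for all `m ≥ 2`, all bounded domains, all admissible boundary data and all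
finite signed measures, the light-segment set of the minimiser is `ℋ^{m-1}`-null. -/
def Q1 : Prop :=
  ∀ m : ℕ, 2 ≤ m → ∀ (Ω : Set (Eu m)) (φ : Eu m → ℝ) (ρ : SignedMeasure (Eu m)) (u : Eu m → ℝ),
    IsOpen Ω → IsConnected Ω → Bornology.IsBounded Ω → AdmBdry Ω φ → u ∈ YY Ω φ →
    (∀ v ∈ YY Ω φ, action Ω ρ u ≤ action Ω ρ v) → μH[(m : ℝ) - 1] (lightSet Ω u) = 0

/-- Q1 is false: it fails in dimension `m = 3`, for a ball, zero boundary data and a measure with an
integrable density; `u` is moreover the unique minimiser. -/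
theorem result :
    ¬ Q1 ∧
    ∃ (Ω : Set (Eu 3)) (φ f u : Eu 3 → ℝ),
      IsOpen Ω ∧ IsConnected Ω ∧ Bornology.IsBounded Ω ∧ AdmBdry Ω φ ∧
      Integrable f ∧ u ∈ YY Ω φ ∧
      (∀ v ∈ YY Ω φ, action Ω (volume.withDensityᵥ f) u ≤ action Ω (volume.withDensityᵥ f) v) ∧
      (∀ v ∈ YY Ω φ, action Ω (volume.withDensityᵥ f) v ≤ action Ω (volume.withDensityᵥ f) u →
        ∀ x ∈ Ω, v x = u x) ∧
      0 < μH[2] (lightSet Ω u) := by
  refine ⟨?_, main⟩
  intro h
  obtain ⟨Ω, φ, f, u, h1, h2, h3, h4, -, h6, h7, -, h9⟩ := main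
  have := h 3 (by norm_num) Ω φ _ u h1 h2 h3 h4 h6 h7
  norm_num at this
  rw [this] at h9
  exact lt_irrefl _ h9

end Pool.Agent.Results.MP_2eaabb_an.LightCounterexample
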